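import Pool.Agent.GEN.DefsZ

/-!
# Squad GEN: an independent set without private coordinates (core of row KPR)
-/

set_option autoImplicit false

namespace Pool.Agent.GEN.H22

open Finset Submodule

variable {σ : Type}

/-- the rational vector of an exponent -/
def cv (α : σ →₀ ℕ) : σ → ℚ := fun i => (α i : ℚ)

/-- coordinate `j` is private in `B` -/
def Priv (B : Finset (σ →₀ ℕ)) (j : σ) : Prop :=
  ∃ A ∈ B, A j = 1 ∧ ∀ β ∈ B, β ≠ A → β j = 0

/-- `B` is a base of the span of `I` -/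
structure IsB (I B : Finset (σ →₀ ℕ)) : Prop where
  sub : B ⊆ I
  ind : LinearIndepOn ℚ cv (B : Set (σ →₀ ℕ))
  spn : ∀ α ∈ I, cv α ∈ span ℚ (cv '' (B : Set (σ →₀ ℕ)))

open scoped Classical in
theorem IsB.exch {I B : Finset (σ →₀ ℕ)} (h : IsB I B) {b Y : σ →₀ ℕ} (hb : b ∈ I) (hY : Y ∈ B)
    {c : (σ →₀ ℕ) → ℚ} (hc : ∑ Z ∈ B, c Z • cv Z = cv b) (hcY : c Y ≠ 0) :
    IsB I (insert b (B.erase Y)) := by
  have hYs : cv Y ∈ span ℚ (cv '' ((insert b (B.erase Y) : Finset (σ →₀ ℕ)) : Set (σ →₀ ℕ))) := by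
    have h1 : cv Y = (c Y)⁻¹ • (cv b - ∑ Z ∈ B.erase Y, c Z • cv Z) := by
      rw [← hc, ← Finset.add_sum_erase _ _ hY, add_sub_cancel_right, smul_smul,
        inv_mul_cancel₀ hcY, one_smul]
    rw [h1]
    refine smul_mem _ _ (sub_mem (subset_span ⟨b, by simp, rfl⟩) (sum_mem fun Z hZ => ?_))
    exact smul_mem _ _ (subset_span ⟨Z, by simp only [coe_insert, Set.mem_insert_iff, mem_coe]; exact Or.inr hZ, rfl⟩)
  have hYn : cv Y ∉ span ℚ (cv '' ((B.erase Y : Finset (σ →₀ ℕ)) : Set (σ →₀ ℕ))) := by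
    have h2 := h.ind
    rw [← Finset.insert_erase hY, coe_insert, linearIndepOn_insert (by simp)] at h2
    exact h2.2
  refine ⟨?_, ?_, ?_⟩
  · intro x hx
    rcases mem_insert.1 hx with rfl | hx
    · exact hb
    · exact h.sub (mem_of_mem_erase hx)
  · rw [coe_insert]
    refine (h.ind.mono (by simpa using (Finset.erase_subset Y B))).insert fun hmem => hYn ?_
    have h1 : cv Y = (c Y)⁻¹ • (cv b - ∑ Z ∈ B.erase Y, c Z • cv Z) := by
      rw [← hc, ← Finset.add_sum_erase _ _ hY, add_sub_cancel_right, smul_smul,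
        inv_mul_cancel₀ hcY, one_smul]
    rw [h1]
    refine smul_mem _ _ (sub_mem hmem (sum_mem fun Z hZ => ?_))
    exact smul_mem _ _ (subset_span ⟨Z, hZ, rfl⟩)
  · intro α hα
    refine span_le.2 ?_ (h.spn α hα)
    rintro _ ⟨Z, hZ, rfl⟩
    by_cases hZY : Z = Y
    · subst hZY
      exact hYs
    · refine subset_span ⟨Z, ?_, rfl⟩
      simp only [coe_insert, Set.mem_insert_iff, mem_coe]
      exact Or.inr (mem_erase.2 ⟨hZY, hZ⟩)

/-- extension of an independent set to a base -/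
theorem exists_isB {I P : Finset (σ →₀ ℕ)} (hP : P ⊆ I)
    (hi : LinearIndepOn ℚ cv (P : Set (σ →₀ ℕ))) : ∃ B, P ⊆ B ∧ IsB I B := by
  classical
  obtain ⟨b, hb1, hb2, hb3, hb4⟩ := exists_linearIndepOn_extension (t := (I : Set (σ →₀ ℕ))) hi
    (by exact_mod_cast hP)
  have hf : b.Finite := I.finite_toSet.subset hb1
  refine ⟨hf.toFinset, ?_, ?_, ?_, ?_⟩
  · intro x hx
    simpa using hb2 hx
  · intro x hx
    exact hb1 (by simpa using hx)
  · simpa using hb4
  · intro α hα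
    simpa using hb3 ⟨α, hα, rfl⟩

open scoped Classical in
/-- **the exchange chain** -/
theorem chain {I : Finset (σ →₀ ℕ)} {T D : Finset σ} (hS : S1 I)
    (hD : ∀ j ∈ T, j ∉ D → ∃ b ∈ I, 2 ≤ b j) (hD1 : ∀ α ∈ I, ∀ j ∈ D, α j ≤ 1)
    {P : Finset (σ →₀ ℕ)} (hP : P ⊆ I) (hPi : LinearIndepOn ℚ cv (P : Set (σ →₀ ℕ)))
    (hP2 : ∀ j ∈ D, 2 ≤ (P.filter fun α => α j ≠ 0).card) :
    ∃ B, IsB I B ∧ ∀ j ∈ T, ¬ Priv B j := by
  obtain ⟨B0, hB0, hB0'⟩ := exists_isB hP hPi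
  let F : Finset (Finset (σ →₀ ℕ)) := I.powerset.filter fun B =>
    IsB I B ∧ ∀ j ∈ D, 2 ≤ (B.filter fun α => α j ≠ 0).card
  have hF : F.Nonempty := by
    refine ⟨B0, ?_⟩
    simp only [F, mem_filter, mem_powerset]
    exact ⟨hB0'.sub, hB0', fun j hj => (hP2 j hj).trans
      (card_le_card (filter_subset_filter _ hB0))⟩
  obtain ⟨B, hBF, hmax⟩ := F.exists_max_image (fun B => (T.filter fun j => ¬ Priv B j).card) hF
  simp only [F, mem_filter, mem_powerset] at hBF hmax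
  obtain ⟨-, hB, hB2⟩ := hBF
  refine ⟨B, hB, fun j0 hj0 hpriv => ?_⟩
  obtain ⟨X, hX, hX1, hX0⟩ := hpriv
  -- j0 is not in D
  have hj0D : j0 ∉ D := by
    intro hj
    have h1 := hB2 j0 hj
    have h2 : (B.filter fun α => α j0 ≠ 0) ⊆ {X} := by
      intro α hα
      rw [mem_filter] at hα
      rw [mem_singleton]
      by_contra hne
      exact hα.2 (hX0 α hα.1 hne)
    have h3 := card_le_card h2
    rw [card_singleton] at h3
    omega
  obtain ⟨b, hbI, hb2⟩ := hD j0 hj0 hj0D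
  obtain ⟨c, hc⟩ := (Submodule.mem_span_image_finset_iff_exists_fun' ℚ).1 (hB.spn b hbI)
  have hcj : ∀ j, ∑ Z ∈ B, c Z * (Z j : ℚ) = (b j : ℚ) := by
    intro j
    have := congrFun hc j
    simpa [cv, Finset.sum_apply] using this
  have hbB : b ∉ B := by
    intro hb
    by_cases h : b = X
    · rw [h] at hb2
      omega
    · have := hX0 b hb h
      omega
  -- the pairs of the chain
  let G : Finset ((σ →₀ ℕ) × σ) := (B ×ˢ T).filter fun q =>
    q.1 q.2 = 1 ∧ 2 ≤ |c q.1| ∧ q.2 ∉ D ∧ ¬ Priv (insert b (B.erase q.1)) q.2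
  have hnp : ∀ Y, ¬ Priv (insert b (B.erase Y)) j0 := by
    rintro Y ⟨A, hA, hA1, hA0⟩
    by_cases h : b = A
    · rw [h] at hb2
      omega
    · have := hA0 b (mem_insert_self _ _) h
      omega
  have hG : G.Nonempty := by
    refine ⟨(X, j0), ?_⟩
    simp only [G, mem_filter, mem_product]
    refine ⟨⟨hX, hj0⟩, hX1, ?_, hj0D, hnp X⟩
    have h1 := hcj j0
    rw [Finset.sum_eq_single_of_mem X hX (fun Z hZ hne => by rw [hX0 Z hZ hne]; simp), hX1] at h1
    have h2 : c X = b j0 := by simpa using h1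
    rw [h2, Nat.abs_cast]
    exact_mod_cast hb2
  obtain ⟨⟨Y, j⟩, hYG, hYmax⟩ := G.exists_max_image (fun q => |c q.1|) hG
  simp only [G, mem_filter, mem_product] at hYG hYmax
  obtain ⟨⟨hY, hj⟩, hYj, hcY, hjD, hjB⟩ := hYG
  have hcY0 : c Y ≠ 0 := by
    intro h
    rw [h, abs_zero] at hcY
    linarith
  have hB' := hB.exch hbI hY hc hcY0
  have hB'2 : ∀ k ∈ D, 2 ≤ ((insert b (B.erase Y)).filter fun α => α k ≠ 0).card := by
    intro k hk
    have hYk : Y k = 0 := by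
      by_contra hne
      have h1 := hD1 Y (hB.sub hY) k hk
      have h2 : Y k = 1 := by omega
      have := hS Y (hB.sub hY) j k hYj h2
      exact hjD (this ▸ hk)
    refine (hB2 k hk).trans (card_le_card fun α hα => ?_)
    rw [mem_filter] at hα ⊢
    refine ⟨mem_insert_of_mem (mem_erase.2 ⟨fun h => hα.2 (h ▸ hYk), hα.1⟩), hα.2⟩
  have hle := hmax _ ⟨hB'.sub, hB', hB'2⟩
  -- a coordinate which is broken in B and private in B'
  obtain ⟨j', hj'T, hj'B, hj'P⟩ : ∃ j' ∈ T, ¬ Priv B j' ∧ Priv (insert b (B.erase Y)) j' := by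
    by_contra hno
    push Not at hno
    have h1 : (T.filter fun j => ¬ Priv B j) ⊂ T.filter fun j => ¬ Priv (insert b (B.erase Y)) j := by
      rw [Finset.ssubset_iff_of_subset]
      · exact ⟨j0, mem_filter.2 ⟨hj0, hnp Y⟩, fun h => (mem_filter.1 h).2 ⟨X, hX, hX1, hX0⟩⟩
      · intro k hk
        rw [mem_filter] at hk ⊢
        exact ⟨hk.1, hno k hk.1 hk.2⟩
    exact absurd hle (not_le.2 (card_lt_card h1))
  have hjj' : j ≠ j' := fun h => hjB (h ▸ hj'P)
  obtain ⟨Z, hZ, hZ1, hZ0⟩ := hj'P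
  have hYj'1 : Y j' ≠ 1 := fun h => hjj' (hS Y (hB.sub hY) j j' hYj h)
  rcases mem_insert.1 hZ with rfl | hZB
  · -- private to b
    have h1 : ∀ β ∈ B, β ≠ Y → β j' = 0 := fun β hβ hne =>
      hZ0 β (mem_insert_of_mem (mem_erase.2 ⟨hne, hβ⟩)) fun h => hbB (h ▸ hβ)
    have h2 := hcj j'
    rw [Finset.sum_eq_single_of_mem Y hY (fun β hβ hne => by rw [h1 β hβ hne]; simp), hZ1] at h2
    have h3 : |c Y| * (Y j' : ℚ) = 1 := by
      have := congrArg abs h2
      rw [abs_mul, Nat.abs_cast] at this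
      simpa using this
    have h4 : Y j' ≠ 0 := by
      intro h
      rw [h] at h3
      simp at h3
    have h5 : (2 : ℚ) ≤ Y j' := by
      have : 2 ≤ Y j' := by omega
      exact_mod_cast this
    nlinarith
  · obtain ⟨hZY, hZB'⟩ := mem_erase.1 hZB
    have hbj' : b j' = 0 := hZ0 b (mem_insert_self _ _) fun h => hbB (h ▸ hZB')
    have h1 : ∀ β ∈ B, β ≠ Y → β ≠ Z → β j' = 0 := fun β hβ hne hne' =>
      hZ0 β (mem_insert_of_mem (mem_erase.2 ⟨hne, hβ⟩)) hne'
    have hYj'0 : Y j' ≠ 0 := by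
      intro h
      refine hj'B ⟨Z, hZB', hZ1, fun β hβ hne => ?_⟩
      by_cases hβY : β = Y
      · rw [hβY, h]
      · exact h1 β hβ hβY hne
    have h2Y : 2 ≤ Y j' := by omega
    have h2 := hcj j'
    have h3 : ∑ β ∈ B, c β * (β j' : ℚ) = c Y * (Y j' : ℚ) + c Z * (Z j' : ℚ) := by
      rw [← Finset.sum_pair (f := fun β => c β * (β j' : ℚ)) (Ne.symm hZY)]
      refine (Finset.sum_subset ?_ ?_).symm
      · intro β hβ
        rcases mem_insert.1 hβ with rfl | hβ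
        · exact hY
        · rw [mem_singleton.1 hβ]
          exact hZB'
      · intro β hβ hne
        simp only [mem_insert, mem_singleton, not_or] at hne
        rw [h1 β hβ hne.1 hne.2]
        simp
    rw [h3, hZ1, hbj'] at h2
    have h4 : c Z = -(c Y * (Y j' : ℚ)) := by
      push_cast at h2
      linarith
    have h5 : |c Z| = |c Y| * (Y j' : ℚ) := by
      rw [h4, abs_neg, abs_mul, Nat.abs_cast]
    have h6 : (2 : ℚ) ≤ Y j' := by exact_mod_cast h2Y
    have h7 := hYmax (Z, j') ⟨⟨hZB', hj'T⟩, hZ1, by nlinarith [abs_nonneg (c Y)], ?_, ?_⟩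
    · simp only at h7
      nlinarith [abs_nonneg (c Y)]
    · intro h
      have := hD1 Y (hB.sub hY) j' h
      omega
    · rintro ⟨A, hA, hA1, hA0⟩
      have hYm : Y ∈ insert b (B.erase Z) := mem_insert_of_mem (mem_erase.2 ⟨Ne.symm hZY, hY⟩)
      by_cases h : Y = A
      · rw [← h] at hA1
        exact hYj'1 hA1
      · exact hYj'0 (hA0 Y hYm h)

end Pool.Agent.GEN.H22
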